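import Mathlib
import Pool.Agent.H387R2.U2

/-! An upper bound for the mean value of the singular series over the sets of shifts containing `0`. -/

set_option autoImplicit false

namespace Pool.Agent.X37.TY

open Finset
open Pool.Agent.H387R2.Uni Pool.Agent.H386R2.HL

theorem WW_le (y : ℕ) : WW y ≤ 4 ^ y := by
  have h : WW y = primorial y := rfl
  rw [h]
  exact primorial_le_four_pow y

/-- the sum of the counts -/
theorem sum_gT (k M W : ℕ) (hW : 0 < W) (hWM : W ≤ M) :
    ((∑ T ∈ (Icc 1 M).powersetCard k, gT W (insert 0 T) : ℕ) : ℝ) ≤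
      Nat.totient W * (2 * M * (Nat.totient W / W : ℝ)) ^ k := by
  classical
  have h1 : ∑ T ∈ (Icc 1 M).powersetCard k, gT W (insert 0 T) =
      ∑ m ∈ (range W).filter (fun m => Nat.Coprime W m),
        (((Icc 1 M).filter (fun t => Nat.Coprime W (m + t))).card).choose k := by
    rw [sum_choose ((range W).filter (fun m => Nat.Coprime W m)) (Icc 1 M) k
      (fun m t => Nat.Coprime W (m + t))]
    apply sum_congr rfl
    intro T _
    unfold gT
    rw [filter_filter]
    congr 1
    apply filter_congr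
    intro m _
    simp only [mem_insert, forall_eq_or_imp, add_zero]
  rw [h1]
  push_cast
  have hWR : (0 : ℝ) < W := by exact_mod_cast hW
  have h2 : ∀ m ∈ (range W).filter (fun m => Nat.Coprime W m),
      ((((Icc 1 M).filter (fun t => Nat.Coprime W (m + t))).card).choose k : ℝ) ≤
        (2 * M * (Nat.totient W / W : ℝ)) ^ k := by
    intro m _
    have h3 : ((Icc 1 M).filter (fun t => Nat.Coprime W (m + t))).card ≤
        Nat.totient W * (M / W + 1) := by
      refine le_trans ?_ (Nat.Ico_filter_coprime_le (m + 1) M hW.ne')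
      apply card_le_card_of_injOn (fun t => m + t)
      · intro t ht
        have ht' := mem_filter.1 (mem_coe.1 ht)
        rw [mem_Icc] at ht'
        apply mem_coe.2
        rw [mem_filter, mem_Ico]
        beta_reduce
        exact ⟨⟨by omega, by omega⟩, ht'.2⟩
      · intro a _ b _ hab
        exact Nat.add_left_cancel hab
    have h4 : ((Nat.totient W * (M / W + 1) : ℕ) : ℝ) ≤ 2 * M * (Nat.totient W / W : ℝ) := by
      have h5 : ((M / W : ℕ) : ℝ) ≤ M / W := Nat.cast_div_le
      have h6 : (1 : ℝ) ≤ M / W := by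
        rw [one_le_div hWR]
        exact_mod_cast hWM
      push_cast
      calc (Nat.totient W : ℝ) * (((M / W : ℕ) : ℝ) + 1) ≤ Nat.totient W * (M / W + M / W) := by
            gcongr
        _ = _ := by ring
    have h7 : (((((Icc 1 M).filter (fun t => Nat.Coprime W (m + t))).card).choose k : ℕ) : ℝ) ≤
        (((Icc 1 M).filter (fun t => Nat.Coprime W (m + t))).card : ℝ) ^ k := by
      exact_mod_cast Nat.choose_le_pow _ _
    refine h7.trans ?_
    apply pow_le_pow_left₀ (by positivity)
    refine le_trans ?_ h4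
    exact_mod_cast h3
  refine (sum_le_sum h2).trans ?_
  rw [sum_const, nsmul_eq_mul]
  apply le_of_eq
  congr 1

theorem gall (k : ℕ) : ∃ C : ℝ, 0 < C ∧ ∃ M₀ : ℕ, ∀ M : ℕ, M₀ ≤ M →
    ∑ T ∈ (Icc 1 M).powersetCard k, CT (insert 0 T) ≤ C * (M : ℝ) ^ k := by
  classical
  set K : ℝ := Real.exp 16 with hK
  have hK1 : 1 ≤ K := by rw [hK]; exact Real.one_le_exp (by norm_num)
  refine ⟨K ^ ((k + 1) * (k + 1)) * 2 ^ k, by positivity, ⌈Real.exp 8⌉₊, fun M hM => ?_⟩
  have hMe : Real.exp 8 ≤ M := (Nat.le_ceil _).trans (by exact_mod_cast hM)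
  have hM0 : (0 : ℝ) < M := (Real.exp_pos 8).trans_le hMe
  have hlogM : 8 ≤ Real.log M := by
    rw [Real.le_log_iff_exp_le hM0]; exact hMe
  set y : ℕ := ⌊Real.log M / 2⌋₊ with hy
  have hy1 : (y : ℝ) ≤ Real.log M / 2 := Nat.floor_le (by linarith)
  have hy2 : Real.log M / 4 ≤ y := by
    have := Nat.lt_floor_add_one (Real.log M / 2)
    rw [← hy] at this
    linarith
  have hy3 : 2 ≤ y := by
    have : (2 : ℝ) ≤ y := by linarith
    exact_mod_cast this
  set W := WW y with hW
  have hW0 : 0 < W := WW_pos y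
  have hWM : W ≤ M := by
    have h1 : (W : ℝ) ≤ M := by
      have h2 : (W : ℝ) ≤ (4 : ℝ) ^ y := by exact_mod_cast WW_le y
      refine h2.trans ?_
      have h4 : Real.log 4 ≤ 2 := by
        have : Real.log 4 = 2 * Real.log 2 := by
          rw [show (4 : ℝ) = 2 ^ 2 by norm_num, Real.log_pow]; norm_num
        rw [this]
        have := Real.log_two_lt_d9
        linarith
      rw [← Real.exp_log hM0, ← Real.exp_log (show (0 : ℝ) < (4 : ℝ) ^ y by positivity)]
      apply Real.exp_le_exp.2
      rw [Real.log_pow]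
      have h5 : 0 ≤ (y : ℝ) := Nat.cast_nonneg y
      nlinarith
    exact_mod_cast h1
  have htt : ∀ n : ℕ, 1 ≤ n → n ≤ M → tt y n ≤ K := by
    intro n hn hnM
    refine (tt_le y n hy3 hn).trans ?_
    rw [hK]
    apply Real.exp_le_exp.2
    have hlogy : Real.log 2 ≤ Real.log y := Real.log_le_log (by norm_num) (by exact_mod_cast hy3)
    have hl2 : (1 / 2 : ℝ) ≤ Real.log 2 := by
      have := Real.log_two_gt_d9; linarith
    have hly : (1 / 2 : ℝ) ≤ Real.log y := hl2.trans hlogy
    have hlogn : Real.log n ≤ Real.log M := Real.log_le_log (by exact_mod_cast hn) (by exact_mod_cast hnM)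
    have hy0 : (0 : ℝ) < y := by linarith
    rw [div_le_iff₀ (by positivity)]
    have h6 : Real.log M / 4 * (1 / 2) ≤ y * Real.log y := by gcongr
    linarith
  have hterm : ∀ T ∈ (Icc 1 M).powersetCard k, CT (insert 0 T) ≤
      K ^ ((k + 1) * (k + 1)) * (((W : ℝ) / Nat.totient W) ^ (k + 1) *
        (gT W (insert 0 T) / W)) := by
    intro T hT
    rw [mem_powersetCard] at hT
    have h0 : 0 ∉ T := by
      intro h
      have := mem_Icc.1 (hT.1 h)
      omega
    have hc : (insert 0 T).card = k + 1 := by rw [card_insert_of_notMem h0, hT.2]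
    have := CT_le (insert 0 T) y hK1 (M := M) (by
      intro t ht
      rw [mem_insert] at ht
      rcases ht with rfl | ht
      · exact Nat.zero_le _
      · exact (mem_Icc.1 (hT.1 ht)).2) htt
    rw [hc] at this
    exact this
  have hφ : (0 : ℝ) < Nat.totient W := by exact_mod_cast Nat.totient_pos.2 hW0
  have hWR : (0 : ℝ) < W := by exact_mod_cast hW0
  calc ∑ T ∈ (Icc 1 M).powersetCard k, CT (insert 0 T)
      ≤ ∑ T ∈ (Icc 1 M).powersetCard k, K ^ ((k + 1) * (k + 1)) *
          (((W : ℝ) / Nat.totient W) ^ (k + 1) * (gT W (insert 0 T) / W)) := sum_le_sum hterm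
    _ = K ^ ((k + 1) * (k + 1)) * (((W : ℝ) / Nat.totient W) ^ (k + 1) *
          (((∑ T ∈ (Icc 1 M).powersetCard k, gT W (insert 0 T) : ℕ) : ℝ) / W)) := by
        rw [← mul_sum, ← mul_sum, ← sum_div]
        push_cast
        rfl
    _ ≤ K ^ ((k + 1) * (k + 1)) * (((W : ℝ) / Nat.totient W) ^ (k + 1) *
          ((Nat.totient W * (2 * M * (Nat.totient W / W : ℝ)) ^ k) / W)) := by
        gcongr
        exact sum_gT k M W hW0 hWM
    _ = K ^ ((k + 1) * (k + 1)) * 2 ^ k * (M : ℝ) ^ k := by
        rw [mul_pow, mul_pow, div_pow, div_pow, pow_succ, pow_succ]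
        field_simp

end Pool.Agent.X37.TY
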