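import Mathlib
import Pool.Agent.X37.TY.Gall
import Pool.Agent.Y840.PT.Gen

/-! Almost all blocks of consecutive primes have patterns which occur with the right order of magnitude. -/

set_option autoImplicit false

namespace Pool.Agent.X37.TY

open Finset Filter Topology
open Pool.Agent.H387R2.Uni (CT locT nuT CT_nonneg)
open Pool.Agent.W218.MU (w SL Prim loc)

/-- the numbers `n + t`, `t ∈ T`, are consecutive primes -/
def Consecutive (n : ℕ) (T : Finset ℕ) : Prop :=
  (∀ t ∈ T, (n + t).Prime) ∧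
    ∀ j : ℕ, (∃ a ∈ T, a ≤ j) → (∃ b ∈ T, j ≤ b) → (n + j).Prime → j ∈ T

open Classical in
/-- the number of `n ∈ [x, 2 x)` with this property -/
noncomputable def cons (x : ℕ) (T : Finset ℕ) : ℕ :=
  ((Ico x (2 * x)).filter (fun n => Consecutive n T)).card

/-- the numbers `n + t`, `t ∈ T`, are primes -/
def AllPrime (n : ℕ) (T : Finset ℕ) : Prop := ∀ t ∈ T, (n + t).Prime

open Classical in
/-- the number of `n ∈ [x, 2 x)` for which all the `n + t` are prime -/
noncomputable def allp (x : ℕ) (T : Finset ℕ) : ℕ :=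
  ((Ico x (2 * x)).filter (fun n => AllPrime n T)).card

theorem cons_le_allp (x : ℕ) (T : Finset ℕ) : cons x T ≤ allp x T := by
  classical
  unfold cons allp
  apply card_le_card
  intro n hn
  rw [mem_filter] at hn ⊢
  exact ⟨hn.1, hn.2.1⟩

/-- the forms `n + t` -/
def sh : ℕ ↪ ℕ × ℕ := ⟨fun t => (1, t), fun _ _ h => (Prod.mk.inj h).2⟩

lemma prim_sh (T : Finset ℕ) : Prim (T.map sh) := by
  intro L hL
  rw [Finset.mem_map] at hL
  obtain ⟨r, _, rfl⟩ := hL
  exact ⟨le_rfl, Nat.coprime_one_left r⟩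

lemma w_sh (T : Finset ℕ) {p : ℕ} (hp : 0 < p) : w (T.map sh) p = nuT T p := by
  unfold w nuT
  apply card_nbij' (fun n => (p - n) % p) (fun c => (p - c) % p)
  · intro n hn
    rw [mem_coe, mem_filter, mem_range] at hn
    obtain ⟨hnp, L, hL, hd⟩ := hn
    rw [Finset.mem_map] at hL
    obtain ⟨t, ht, rfl⟩ := hL
    rw [mem_coe, mem_image]
    refine ⟨t, ht, ?_⟩
    have hd' : p ∣ n + t := by
      have h : p ∣ 1 * n + t := hd
      rwa [one_mul] at h
    have h1 : n + t ≡ n + (p - n) [MOD p] := by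
      have e : n + (p - n) = p := by omega
      rw [e]
      exact (Nat.modEq_zero_iff_dvd.2 hd').trans (Nat.modEq_zero_iff_dvd.2 dvd_rfl).symm
    exact Nat.ModEq.add_left_cancel' n h1
  · intro c hc
    rw [mem_coe, mem_image] at hc
    obtain ⟨t, ht, rfl⟩ := hc
    rw [mem_coe, mem_filter, mem_range]
    refine ⟨Nat.mod_lt _ hp, sh t, mem_map_of_mem sh ht, ?_⟩
    change p ∣ 1 * ((p - t % p) % p) + t
    rw [one_mul]
    have hlt := Nat.mod_lt t hp
    have h1 : (p - t % p) % p + t ≡ (p - t % p) + t % p [MOD p] :=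
      Nat.ModEq.add (Nat.mod_modEq _ _) (Nat.mod_modEq _ _).symm
    have e : (p - t % p) + t % p = p := by omega
    rw [e] at h1
    exact Nat.modEq_zero_iff_dvd.1 (h1.trans (Nat.modEq_zero_iff_dvd.2 dvd_rfl))
  · intro n hn
    rw [mem_coe, mem_filter, mem_range] at hn
    change (p - (p - n) % p) % p = n
    rcases Nat.eq_zero_or_pos n with h | h
    · subst h
      rw [Nat.sub_zero, Nat.mod_self, Nat.sub_zero, Nat.mod_self]
    · rw [Nat.mod_eq_of_lt (show p - n < p by omega), Nat.mod_eq_of_lt (by omega)]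
      omega
  · intro c hc
    rw [mem_coe, mem_image] at hc
    obtain ⟨t, ht, rfl⟩ := hc
    have hlt := Nat.mod_lt t hp
    change (p - (p - t % p) % p) % p = t % p
    rcases Nat.eq_zero_or_pos (t % p) with h | h
    · rw [h, Nat.sub_zero, Nat.mod_self, Nat.sub_zero, Nat.mod_self]
    · rw [Nat.mod_eq_of_lt (show p - t % p < p by omega), Nat.mod_eq_of_lt (by omega)]
      omega

lemma SL_sh (T : Finset ℕ) : SL (T.map sh) = CT T := by
  unfold SL CT
  apply tprod_congr
  intro p
  unfold loc locT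
  rw [w_sh T p.2.pos, card_map]

/-- the classical upper bound -/
theorem allp_le (k : ℕ) : ∃ C : ℝ, 0 < C ∧ ∃ X₀ : ℕ, ∀ x : ℕ, X₀ ≤ x → ∀ T : Finset ℕ,
    T.card = k + 1 → (∀ p : ℕ, p.Prime → nuT T p < p) →
    (allp x T : ℝ) ≤ C * (CT T * (x / Real.log x ^ (k + 1))) := by
  classical
  obtain ⟨C, hC, X₀, h⟩ := Pool.Agent.Y840.PT.up (k + 1)
  refine ⟨C, hC, X₀ + 1, fun x hx T hT hadm => ?_⟩
  have h1 := h x (x - 1) (by omega) (by omega) (T.map sh) (prim_sh T) (by rw [card_map, hT])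
    (fun p hp => by rw [w_sh T hp.pos]; exact hadm p hp)
  rw [SL_sh] at h1
  refine le_trans ?_ h1
  rw [Nat.cast_le]
  unfold allp
  apply card_le_card
  intro n hn
  rw [mem_filter, mem_Ico] at hn
  rw [mem_filter, mem_Ioc]
  refine ⟨⟨by omega, by omega⟩, ?_⟩
  intro L hL
  rw [Finset.mem_map] at hL
  obtain ⟨t, ht, rfl⟩ := hL
  have := hn.2 t ht
  change (1 * n + t).Prime
  rw [one_mul]
  exact this

/-- patterns of large primes are admissible -/
theorem nu_lt {x p k : ℕ} {T : Finset ℕ} (hpx : x ≤ p) (hT : T.card = k + 1) (hk : k + 1 < x)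
    (hp : ∀ t ∈ T, (p + t).Prime) : ∀ l : ℕ, l.Prime → nuT T l < l := by
  intro l hl
  rcases lt_or_ge l x with h | h
  · unfold nuT
    have hl0 := hl.pos
    have h1 : T.image (· % l) ⊆ (range l).erase ((l - p % l) % l) := by
      intro c hc
      rw [mem_image] at hc
      obtain ⟨t, ht, rfl⟩ := hc
      rw [mem_erase, mem_range]
      refine ⟨fun hcon => ?_, Nat.mod_lt _ hl0⟩
      have h2 : l ∣ p + t := by
        have hlt := Nat.mod_lt p hl0
        have h3 : p + t ≡ p % l + (l - p % l) [MOD l] := by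
          apply Nat.ModEq.add (Nat.mod_modEq _ _).symm
          exact hcon
        have e : p % l + (l - p % l) = l := by omega
        rw [e] at h3
        exact Nat.modEq_zero_iff_dvd.1 (h3.trans (Nat.modEq_zero_iff_dvd.2 dvd_rfl))
      have h4 := (Nat.prime_dvd_prime_iff_eq hl (hp t ht)).1 h2
      omega
    have h5 := card_le_card h1
    rw [card_erase_of_mem (mem_range.2 (Nat.mod_lt _ hl0)), card_range] at h5
    omega
  · have h1 : nuT T l ≤ T.card := card_image_le
    omega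

/-- few primes are followed by a long interval with few primes -/
theorem few_long (x M k : ℕ) (hM : 1 ≤ M) :
    ((Ico x (2 * x)).filter (fun p => p.Prime ∧ ((Icc p (p + M)).filter Nat.Prime).card ≤ k)).card ≤
      k * (x / M + 1) := by
  classical
  have h := card_le_mul_card_image_of_maps_to (s := (Ico x (2 * x)).filter
    (fun p => p.Prime ∧ ((Icc p (p + M)).filter Nat.Prime).card ≤ k))
    (t := range (x / M + 1)) (f := fun p => (p - x) / M) (by
      intro p hp
      rw [mem_filter, mem_Ico] at hp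
      rw [mem_range]
      have : (p - x) / M ≤ x / M := Nat.div_le_div_right (by omega)
      omega) k (by
      intro i _
      rcases (((Ico x (2 * x)).filter (fun p => p.Prime ∧
        ((Icc p (p + M)).filter Nat.Prime).card ≤ k)).filter (fun p => (p - x) / M = i)).eq_empty_or_nonempty with h0 | h0
      · rw [h0]; simp
      · set S := ((Ico x (2 * x)).filter (fun p => p.Prime ∧
          ((Icc p (p + M)).filter Nat.Prime).card ≤ k)).filter (fun p => (p - x) / M = i) with hS
        have h1 := S.min'_mem h0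
        set p0 := S.min' h0 with hp0
        rw [hS, mem_filter, mem_filter, mem_Ico] at h1
        refine le_trans (card_le_card ?_) h1.1.2.2
        intro p hp
        have h2 : p0 ≤ p := S.min'_le p hp
        rw [hS, mem_filter, mem_filter, mem_Ico] at hp
        rw [mem_filter, mem_Icc]
        refine ⟨⟨h2, ?_⟩, hp.1.2.1⟩
        have h3 : (p - x) / M = (p0 - x) / M := by rw [hp.2, h1.2]
        have h4 := Nat.div_add_mod (p - x) M
        have h5 := Nat.div_add_mod (p0 - x) M
        have h6 := Nat.mod_lt (p - x) (show M > 0 by omega)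
        rw [h3] at h4
        omega)
  rw [card_range] at h
  exact h

theorem short_of_long {p M k : ℕ} {T : Finset ℕ} (hT : T.card = k + 1) (h0 : 0 ∈ T)
    (hc : Consecutive p T) {t : ℕ} (ht : t ∈ T) (hMt : M < t) :
    ((Icc p (p + M)).filter Nat.Prime).card ≤ k := by
  have h1 : (T.erase t).card = k := by rw [card_erase_of_mem ht, hT]; rfl
  rw [← h1]
  apply card_le_card_of_injOn (fun q => q - p)
  · intro q hq
    have hq' := mem_filter.1 (mem_coe.1 hq)
    rw [mem_Icc] at hq'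
    apply mem_coe.2
    beta_reduce
    rw [mem_erase]
    refine ⟨by omega, hc.2 (q - p) ⟨0, h0, Nat.zero_le _⟩ ⟨t, ht, by omega⟩ ?_⟩
    have e : p + (q - p) = q := by omega
    rw [e]
    exact hq'.2
  · intro a ha b hb hab
    have ha' := mem_filter.1 (mem_coe.1 ha)
    have hb' := mem_filter.1 (mem_coe.1 hb)
    rw [mem_Icc] at ha' hb'
    have : a - p = b - p := hab
    omega

open Classical in
/-- the exceptional `p` with patterns of small diameter -/
theorem small_count (P : ℕ → Finset ℕ → Prop) (x k M : ℕ) (B : ℝ) (hB : 0 ≤ B) :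
    (((Ico x (2 * x)).filter (fun p => ∃ T : Finset ℕ, T.card = k + 1 ∧ 0 ∈ T ∧
      (∀ t ∈ T, t ≤ M) ∧ P p T ∧
      (((Ico x (2 * x)).filter (fun n => P n T)).card : ℝ) ≤ B * CT T)).card : ℝ) ≤
      B * ∑ T ∈ (Icc 1 M).powersetCard k, CT (insert 0 T) := by
  set E2 := (Ico x (2 * x)).filter (fun p => ∃ T : Finset ℕ, T.card = k + 1 ∧ 0 ∈ T ∧
    (∀ t ∈ T, t ≤ M) ∧ P p T ∧
    (((Ico x (2 * x)).filter (fun n => P n T)).card : ℝ) ≤ B * CT T) with hE2
  have hch : ∀ p ∈ E2, ∃ T : Finset ℕ, T.card = k + 1 ∧ 0 ∈ T ∧ (∀ t ∈ T, t ≤ M) ∧ P p T ∧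
      (((Ico x (2 * x)).filter (fun n => P n T)).card : ℝ) ≤ B * CT T :=
    fun p hp => (mem_filter.1 hp).2
  choose! τ t1 t2 t3 t4 t5 using hch
  have hmaps : ∀ p ∈ E2, (τ p).erase 0 ∈ (Icc 1 M).powersetCard k := by
    intro p hp
    rw [mem_powersetCard]
    constructor
    · intro t ht
      rw [mem_erase] at ht
      rw [mem_Icc]
      exact ⟨Nat.one_le_iff_ne_zero.2 ht.1, t3 p hp t ht.2⟩
    · rw [card_erase_of_mem (t2 p hp), t1 p hp]; rfl
  rw [card_eq_sum_card_fiberwise hmaps, mul_sum]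
  push_cast
  apply sum_le_sum
  intro T _
  have hCT := CT_nonneg (insert 0 T)
  rcases (E2.filter (fun p => (τ p).erase 0 = T)).eq_empty_or_nonempty with h0 | ⟨p0, hp0⟩
  · rw [h0]
    simp only [card_empty, Nat.cast_zero]
    positivity
  · have hins : ∀ p ∈ E2.filter (fun p => (τ p).erase 0 = T), τ p = insert 0 T := by
      intro p hp
      rw [mem_filter] at hp
      rw [← hp.2, insert_erase (t2 p hp.1)]
    have h5 := t5 p0 (mem_filter.1 hp0).1
    rw [hins p0 hp0] at h5
    have h6 : (E2.filter (fun p => (τ p).erase 0 = T)).card ≤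
        ((Ico x (2 * x)).filter (fun n => P n (insert 0 T))).card := by
      apply card_le_card
      intro p hp
      have hp' := (mem_filter.1 hp).1
      rw [mem_filter]
      refine ⟨(mem_filter.1 hp').1, ?_⟩
      rw [← hins p hp]
      exact t4 p hp'
    have h7 : ((E2.filter (fun p => (τ p).erase 0 = T)).card : ℝ) ≤
        (((Ico x (2 * x)).filter (fun n => P n (insert 0 T))).card : ℝ) := by
      exact_mod_cast h6
    exact h7.trans h5

/-- bounds for both statements -/
theorem both (k : ℕ) : ∃ C : ℝ, 0 < C ∧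
    (∀ δ lam : ℝ, 0 < δ → 0 < lam → ∃ x₀ : ℕ, ∀ x : ℕ, x₀ ≤ x →
    ∀ E : Finset ℕ, E ⊆ (Ico x (2 * x)).filter Nat.Prime →
    (∀ p ∈ E, ∃ T : Finset ℕ, T.card = k + 1 ∧ 0 ∈ T ∧ (∀ t ∈ T, (t : ℝ) ≤ lam * Real.log x) ∧
      (∀ t ∈ T, (p + t).Prime) ∧ ¬ (δ * (CT T * (x / Real.log x ^ (k + 1))) ≤ (allp x T : ℝ) ∧
        (allp x T : ℝ) ≤ C * (CT T * (x / Real.log x ^ (k + 1))))) →
      (E.card : ℝ) ≤ C * δ * lam ^ k * (x / Real.log x)) ∧
    ∀ δ : ℝ, 0 < δ → ∃ x₀ : ℕ, ∀ x : ℕ, x₀ ≤ x →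
    ∀ E : Finset ℕ, E ⊆ (Ico x (2 * x)).filter Nat.Prime →
    (∀ p ∈ E, ∃ T : Finset ℕ, T.card = k + 1 ∧ 0 ∈ T ∧ Consecutive p T ∧
      ¬ (δ * (CT T * (x / Real.log x ^ (k + 1))) ≤ (cons x T : ℝ) ∧
        (allp x T : ℝ) ≤ C * (CT T * (x / Real.log x ^ (k + 1))))) →
      (E.card : ℝ) ≤ C * δ ^ (1 / ((k : ℝ) + 1)) * (x / Real.log x) := by
  classical
  obtain ⟨Cu, hCu, X₁, hup⟩ := allp_le k
  obtain ⟨Cg, hCg, M₀, hg⟩ := gall k
  obtain ⟨C, hC⟩ : ∃ C : ℝ, C = 4 * k + Cg + Cu := ⟨_, rfl⟩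
  have hk0 : (0 : ℝ) ≤ k := Nat.cast_nonneg k
  have hC0 : 0 < C := by rw [hC]; linarith
  have tN : Tendsto (fun N : ℕ => (N : ℝ)) atTop atTop := tendsto_natCast_atTop_atTop
  have tlog : Tendsto (fun x : ℕ => Real.log (x : ℝ)) atTop atTop := Real.tendsto_log_atTop.comp tN
  refine ⟨C, hC0, fun δ lam hδ hlam => ?_, fun δ hδ => ?_⟩
  · have tL : Tendsto (fun x : ℕ => lam * Real.log (x : ℝ)) atTop atTop :=
      tlog.const_mul_atTop hlam
    obtain ⟨x₀, hx₀⟩ := eventually_atTop.1 ((tL.eventually_ge_atTop (M₀ + 2 : ℝ)).and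
      ((eventually_ge_atTop X₁).and (eventually_ge_atTop (k + 3))))
    refine ⟨x₀, fun x hx E hE hbad => ?_⟩
    obtain ⟨h1, h3, h4⟩ := hx₀ x hx
    have hxR : (3 : ℝ) ≤ x := by exact_mod_cast (by omega : 3 ≤ x)
    set L : ℝ := Real.log x with hL
    have hL0 : 0 < L := Real.log_pos (by linarith)
    set M : ℕ := ⌊lam * L⌋₊ with hM
    have hLe : 0 < lam * L := by positivity
    have hM1 : (M : ℝ) ≤ lam * L := Nat.floor_le hLe.le
    have hM2 : lam * L < M + 1 := Nat.lt_floor_add_one _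
    have hM4 : M₀ ≤ M := by
      have : (M₀ : ℝ) ≤ M := by linarith
      exact_mod_cast this
    have hB : 0 ≤ δ * (x / L ^ (k + 1)) := by positivity
    have hsub : E ⊆ (Ico x (2 * x)).filter (fun p => ∃ T : Finset ℕ, T.card = k + 1 ∧ 0 ∈ T ∧
        (∀ t ∈ T, t ≤ M) ∧ AllPrime p T ∧
        (((Ico x (2 * x)).filter (fun n => AllPrime n T)).card : ℝ) ≤
          δ * (x / L ^ (k + 1)) * CT T) := by
      intro p hp
      have hpI := (mem_filter.1 (hE hp)).1
      have hpx := mem_Ico.1 hpI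
      obtain ⟨T, hT1, hT2, hT3, hT4, hT5⟩ := hbad p hp
      have hCT := CT_nonneg T
      have hup' : (allp x T : ℝ) ≤ C * (CT T * (x / L ^ (k + 1))) := by
        refine (hup x h3 T hT1 (nu_lt hpx.1 hT1 (by omega) hT4)).trans ?_
        apply mul_le_mul_of_nonneg_right _ (by positivity)
        rw [hC]; linarith
      rw [mem_filter]
      refine ⟨hpI, T, hT1, hT2, fun t ht => Nat.le_floor (hT3 t ht), hT4, ?_⟩
      have h5 : (allp x T : ℝ) ≤ δ * (CT T * (x / L ^ (k + 1))) := by
        by_contra hcon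
        exact hT5 ⟨(not_le.1 hcon).le, hup'⟩
      have h6 : δ * (x / L ^ (k + 1)) * CT T = δ * (CT T * (x / L ^ (k + 1))) := by ring
      rw [h6]
      exact h5
    have h7 := small_count (fun n T => AllPrime n T) x k M _ hB
    have h8 := hg M hM4
    have h9 : (M : ℝ) ^ k ≤ (lam * L) ^ k := pow_le_pow_left₀ (Nat.cast_nonneg _) hM1 k
    have h10 : (E.card : ℝ) ≤ δ * (x / L ^ (k + 1)) *
        ∑ T ∈ (Icc 1 M).powersetCard k, CT (insert 0 T) := by
      refine le_trans ?_ h7
      rw [Nat.cast_le]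
      exact card_le_card hsub
    calc (E.card : ℝ) ≤ _ := h10
      _ ≤ δ * (x / L ^ (k + 1)) * (Cg * (M : ℝ) ^ k) := by gcongr
      _ ≤ δ * (x / L ^ (k + 1)) * (Cg * (lam * L) ^ k) := by gcongr
      _ = Cg * (δ * lam ^ k * (x / L)) := by
          rw [mul_pow, pow_succ]
          field_simp
      _ ≤ C * (δ * lam ^ k * (x / L)) := by
          apply mul_le_mul_of_nonneg_right _ (by positivity)
          rw [hC]; linarith
      _ = C * δ * lam ^ k * (x / L) := by ring
  · set e : ℝ := δ ^ (1 / ((k : ℝ) + 1)) with he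
    have he0 : 0 < e := Real.rpow_pos_of_pos hδ _
    have hek : e ^ (k + 1) = δ := by
      rw [he, ← Real.rpow_natCast, ← Real.rpow_mul hδ.le]
      have : 1 / ((k : ℝ) + 1) * ((k + 1 : ℕ) : ℝ) = 1 := by
        push_cast
        field_simp
      rw [this, Real.rpow_one]
    have tL : Tendsto (fun x : ℕ => Real.log (x : ℝ) / e) atTop atTop :=
      tlog.atTop_div_const he0
    have hlog : ∀ᶠ x : ℕ in atTop, Real.log (x : ℝ) ≤ e * x := by
      have h1 := (Real.isLittleO_log_id_atTop.bound he0)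
      filter_upwards [tN.eventually h1, eventually_ge_atTop 1] with x hx hx1
      have h2 : (0 : ℝ) ≤ x := Nat.cast_nonneg x
      simp only [id, Real.norm_eq_abs, abs_of_nonneg h2] at hx
      exact (le_abs_self _).trans hx
    obtain ⟨x₀, hx₀⟩ := eventually_atTop.1 (((tL.eventually_ge_atTop (M₀ + 2 : ℝ)).and hlog).and
      ((eventually_ge_atTop X₁).and (eventually_ge_atTop (k + 3))))
    refine ⟨x₀, fun x hx E hE hbad => ?_⟩
    obtain ⟨⟨h1, h2⟩, h3, h4⟩ := hx₀ x hx
    have hxR : (3 : ℝ) ≤ x := by exact_mod_cast (by omega : 3 ≤ x)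
    set L : ℝ := Real.log x with hL
    have hL0 : 0 < L := Real.log_pos (by linarith)
    set M : ℕ := ⌊L / e⌋₊ with hM
    have hLe : 0 < L / e := by positivity
    have hM1 : (M : ℝ) ≤ L / e := Nat.floor_le hLe.le
    have hM2 : L / e < M + 1 := Nat.lt_floor_add_one _
    have hM₀0 : (0 : ℝ) ≤ M₀ := Nat.cast_nonneg _
    have hM4 : M₀ ≤ M := by
      have : (M₀ : ℝ) ≤ M := by linarith
      exact_mod_cast this
    have hM5 : (1 : ℝ) ≤ M := by linarith
    have hM6 : 1 ≤ M := by exact_mod_cast hM5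
    have hM7 : L / (2 * e) ≤ M := by
      have : L / (2 * e) = L / e / 2 := by field_simp
      rw [this]; linarith
    have hM8 : (M : ℝ) ≤ x := by
      refine hM1.trans ?_
      rw [div_le_iff₀ he0]
      linarith
    have hB : 0 ≤ δ * (x / L ^ (k + 1)) := by positivity
    set E1 := (Ico x (2 * x)).filter (fun p => p.Prime ∧ ((Icc p (p + M)).filter Nat.Prime).card ≤ k)
      with hE1
    set E2 := (Ico x (2 * x)).filter (fun p => ∃ T : Finset ℕ, T.card = k + 1 ∧ 0 ∈ T ∧
        (∀ t ∈ T, t ≤ M) ∧ Consecutive p T ∧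
        (((Ico x (2 * x)).filter (fun n => Consecutive n T)).card : ℝ) ≤
          δ * (x / L ^ (k + 1)) * CT T) with hE2
    have hsub : E ⊆ E1 ∪ E2 := by
      intro p hp
      have hpI := (mem_filter.1 (hE hp)).1
      have hpp := (mem_filter.1 (hE hp)).2
      have hpx := mem_Ico.1 hpI
      obtain ⟨T, hT1, hT2, hT3, hT4⟩ := hbad p hp
      have hCT := CT_nonneg T
      have hup' : (allp x T : ℝ) ≤ C * (CT T * (x / L ^ (k + 1))) := by
        refine (hup x h3 T hT1 (nu_lt hpx.1 hT1 (by omega) hT3.1)).trans ?_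
        apply mul_le_mul_of_nonneg_right _ (by positivity)
        rw [hC]; linarith
      have hlow : (cons x T : ℝ) ≤ δ * (CT T * (x / L ^ (k + 1))) := by
        by_contra hcon
        exact hT4 ⟨(not_le.1 hcon).le, hup'⟩
      rw [mem_union]
      by_cases hs : ∀ t ∈ T, t ≤ M
      · right
        rw [hE2, mem_filter]
        refine ⟨hpI, T, hT1, hT2, hs, hT3, ?_⟩
        have h6 : δ * (x / L ^ (k + 1)) * CT T = δ * (CT T * (x / L ^ (k + 1))) := by ring
        rw [h6]
        exact hlow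
      · left
        push Not at hs
        obtain ⟨t, ht, hMt⟩ := hs
        rw [hE1, mem_filter]
        exact ⟨hpI, hpp, short_of_long hT1 hT2 hT3 ht hMt⟩
    have hc1 : (E1.card : ℝ) ≤ 4 * k * e * (x / L) := by
      have h5 : E1.card ≤ k * (x / M + 1) := few_long x M k hM6
      have h6 : (E1.card : ℝ) ≤ k * (((x / M : ℕ) : ℝ) + 1) := by exact_mod_cast h5
      have h7 : ((x / M : ℕ) : ℝ) ≤ x / M := Nat.cast_div_le
      have hM0 : (0 : ℝ) < M := by linarith
      have h8 : (1 : ℝ) ≤ x / M := by rw [one_le_div hM0]; exact hM8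
      have h9 : (x : ℝ) / M ≤ x / (L / (2 * e)) := div_le_div_of_nonneg_left (by linarith)
        (by positivity) hM7
      calc (E1.card : ℝ) ≤ k * (((x / M : ℕ) : ℝ) + 1) := h6
        _ ≤ k * (x / M + x / M) := by gcongr
        _ ≤ k * (x / (L / (2 * e)) + x / (L / (2 * e))) := by gcongr
        _ = 4 * k * e * (x / L) := by field_simp; ring
    have hc2 : (E2.card : ℝ) ≤ Cg * e * (x / L) := by
      refine (small_count (fun n T => Consecutive n T) x k M _ hB).trans ?_
      have h8 := hg M hM4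
      have h9 : (M : ℝ) ^ k ≤ (L / e) ^ k := pow_le_pow_left₀ (by linarith) hM1 k
      calc δ * (x / L ^ (k + 1)) * ∑ T ∈ (Icc 1 M).powersetCard k, CT (insert 0 T)
          ≤ δ * (x / L ^ (k + 1)) * (Cg * (M : ℝ) ^ k) := by gcongr
        _ ≤ δ * (x / L ^ (k + 1)) * (Cg * (L / e) ^ k) := by gcongr
        _ = Cg * e * (x / L) := by
            rw [← hek, div_pow, pow_succ, pow_succ]
            field_simp
    have h10 : (E.card : ℝ) ≤ E1.card + E2.card := by
      exact_mod_cast (card_le_card hsub).trans (card_union_le _ _)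
    have hxL : 0 ≤ e * (x / L) := by positivity
    calc _ ≤ (E1.card : ℝ) + E2.card := h10
      _ ≤ 4 * k * e * (x / L) + Cg * e * (x / L) := add_le_add hc1 hc2
      _ = (4 * k + Cg) * (e * (x / L)) := by ring
      _ ≤ C * (e * (x / L)) := by
          apply mul_le_mul_of_nonneg_right _ hxL
          rw [hC]; linarith
      _ = C * e * (x / L) := by ring

end Pool.Agent.X37.TY
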